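import Mathlib

/-!
# MP_dbe012_pr, Q1: no background noise for third degree inverse stochastic dominance

For a law `μ` on `ℝ` (a `Measure ℝ` that is a probability measure) we use

* `quantile μ p = inf {x : F(x) ≥ p}`, the quantile function `F⁻¹`;
* `invCdf μ n = F^[-(n+1)]`, that is `invCdf μ 0 = F⁻¹` and
  `invCdf μ (n+1) p = ∫₀ᵖ invCdf μ n`;
* `ISDle n μ ν` : `F_μ^[-n](p) ≤ F_ν^[-n](p)` for all `p ∈ (0, 1)`, the order `≤ₙ⁻`;
* `ISDlt n μ ν` : the same with strict inequality somewhere, the order `<ₙ⁻`;
* `minMean k μ = μ_{1:k}`, the expectation of the minimum of `k` independent copies.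

The law of `X + Z` with `X`, `Z` independent of laws `μ`, `ρ` is `μ ∗ ρ` (Mathlib's convolution of
measures).

We show that the answer to Q1 is negative already for `n = 3`: there are integrable laws `μ`, `ν`
with `μ_{1:1} = ν_{1:1}`, `μ_{1:2} = ν_{1:2}`, `μ_{1:3} > ν_{1:3}` such that for no integrable noise
law `ρ` one has `μ ∗ ρ ≤₃⁻ ν ∗ ρ` (let alone the strict relation).  Here `μ` is the uniform law on
`(0, 3)` and `ν` the law of `5/2 - E` with `E` exponential of mean `1`.

Proof.  `F^[-3](1) = ½ μ_{1:2}`, so the relation forces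
`E min(X + Z, X' + Z') ≤ E min(Y + Z, Y' + Z')`.  With `m_X(s) = E min(X + s, X')` one has
`E min(X + Z, X' + Z') = E (Z' + m_X(Z - Z'))`, and
`m_X(s) - m_Y(s) = ½ (e^{-|s|} - ((1 - |s|/3)⁺)³)` is positive for `s ≠ 0`.  Hence `Z` is constant,
and then the relation fails at small `p`, where the quantile function of `ν` is below that of `μ`.
-/

set_option autoImplicit false

open MeasureTheory ProbabilityTheory Set Filter Topology

namespace Pool.Agent.Results.MP_dbe012_pr.NoBackgroundNoise

/-- the quantile function `F⁻¹(p) = inf {x : F(x) ≥ p}` of a law on `ℝ` -/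
noncomputable def quantile (μ : Measure ℝ) (p : ℝ) : ℝ := sInf {x : ℝ | p ≤ cdf μ x}

/-- `invCdf μ n = F^[-(n+1)]`: the quantile function and its iterated primitives. -/
noncomputable def invCdf (μ : Measure ℝ) : ℕ → ℝ → ℝ
  | 0 => quantile μ
  | n + 1 => fun p => ∫ u in (0 : ℝ)..p, invCdf μ n u

/-- `n`-th degree inverse stochastic dominance `μ ≤ₙ⁻ ν` -/
def ISDle (n : ℕ) (μ ν : Measure ℝ) : Prop :=
  ∀ p ∈ Ioo (0 : ℝ) 1, invCdf μ (n - 1) p ≤ invCdf ν (n - 1) p

/-- strict `n`-th degree inverse stochastic dominance `μ <ₙ⁻ ν` -/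
def ISDlt (n : ℕ) (μ ν : Measure ℝ) : Prop :=
  ISDle n μ ν ∧ ∃ p ∈ Ioo (0 : ℝ) 1, invCdf μ (n - 1) p < invCdf ν (n - 1) p

/-- `μ_{1:k}`: the mean of the minimum of `k` independent copies -/
noncomputable def minMean (k : ℕ) (μ : Measure ℝ) : ℝ :=
  ∫ x : Fin k → ℝ, (⨅ i, x i) ∂(Measure.pi fun _ => μ)

/-! ## Quantiles -/

section quantile
variable {μ : Measure ℝ} [IsProbabilityMeasure μ]

omit [IsProbabilityMeasure μ] in
lemma quantile_le_iff {p : ℝ} (hp : p ∈ Ioo (0 : ℝ) 1) (x : ℝ) :
    quantile μ p ≤ x ↔ p ≤ cdf μ x := by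
  have hne : {x : ℝ | p ≤ cdf μ x}.Nonempty := by
    have := (tendsto_cdf_atTop μ).eventually (lt_mem_nhds hp.2)
    obtain ⟨x, hx⟩ := this.exists
    exact ⟨x, hx.le⟩
  have hbdd : BddBelow {x : ℝ | p ≤ cdf μ x} := by
    have := (tendsto_cdf_atBot μ).eventually (gt_mem_nhds hp.1)
    obtain ⟨y, hy⟩ := this.exists
    refine ⟨y, fun x hx => ?_⟩
    by_contra hlt
    push Not at hlt
    exact absurd (hx.trans (monotone_cdf μ hlt.le)) (not_le.2 hy)
  constructor
  · intro h
    -- right continuity
    have h1 : ∀ y, quantile μ p < y → p ≤ cdf μ y := by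
      intro y hy
      obtain ⟨z, hz, hzy⟩ := (csInf_lt_iff hbdd hne).1 hy
      exact hz.trans (monotone_cdf μ hzy.le)
    have h2 : Tendsto (cdf μ) (𝓝[>] x) (𝓝 (cdf μ x)) :=
      ((cdf μ).right_continuous x).mono_left (nhdsWithin_mono _ Ioi_subset_Ici_self)
    refine ge_of_tendsto h2 ?_
    filter_upwards [self_mem_nhdsWithin] with y hy
    exact h1 y (lt_of_le_of_lt h hy)
  · intro h
    exact csInf_le hbdd h

omit [IsProbabilityMeasure μ] in
lemma lt_quantile_iff {p : ℝ} (hp : p ∈ Ioo (0 : ℝ) 1) (x : ℝ) :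
    x < quantile μ p ↔ cdf μ x < p := by
  rw [← not_le, quantile_le_iff hp, not_le]

omit [IsProbabilityMeasure μ] in
lemma quantile_mono : MonotoneOn (quantile μ) (Ioo 0 1) := by
  intro p hp q hq hpq
  rw [quantile_le_iff hp]
  exact hpq.trans ((quantile_le_iff hq _).1 le_rfl)

/-- a law is determined by the measures of the half lines `(t, ∞)` -/
lemma ext_Ioi {α β : Measure ℝ} [IsProbabilityMeasure α] [IsProbabilityMeasure β]
    (h : ∀ t, α (Ioi t) = β (Ioi t)) : α = β := by
  apply Measure.ext_of_Iic
  intro t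
  rw [← compl_Ioi, prob_compl_eq_one_sub measurableSet_Ioi, prob_compl_eq_one_sub measurableSet_Ioi,
    h t]

/-- the law on `(0, 1)` of the minimum of `k + 1` independent uniform variables -/
noncomputable def tau (k : ℕ) : Measure ℝ :=
  (volume.restrict (Ioo (0 : ℝ) 1)).withDensity fun u => ENNReal.ofReal ((k + 1) * (1 - u) ^ k)

lemma integral_pow_aux (k : ℕ) (a : ℝ) :
    ∫ u in a..1, ((k : ℝ) + 1) * (1 - u) ^ k = (1 - a) ^ (k + 1) := by
  have h : ∀ u ∈ uIcc a 1, HasDerivAt (fun u : ℝ => -(1 - u) ^ (k + 1))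
      (((k : ℝ) + 1) * (1 - u) ^ k) u := by
    intro u _
    have h1 : HasDerivAt (fun u : ℝ => 1 - u) (-1) u := by
      simpa using (hasDerivAt_id u).const_sub 1
    have h2 := (h1.fun_pow (k + 1)).fun_neg
    refine h2.congr_deriv ?_
    push_cast
    simp
  rw [intervalIntegral.integral_eq_sub_of_hasDerivAt h (Continuous.intervalIntegrable
    (by fun_prop) _ _)]
  simp

lemma tau_Ioo (k : ℕ) {a : ℝ} (ha0 : 0 ≤ a) (ha1 : a ≤ 1) :
    tau k (Ioo a 1) = ENNReal.ofReal ((1 - a) ^ (k + 1)) := by
  unfold tau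
  rw [withDensity_apply _ measurableSet_Ioo, Measure.restrict_restrict measurableSet_Ioo,
    inter_eq_left.2 (Ioo_subset_Ioo_left ha0), ← integral_pow_aux k a,
    intervalIntegral.integral_of_le ha1, integral_Ioc_eq_integral_Ioo,
    ofReal_integral_eq_lintegral_ofReal]
  · apply Integrable.mono_measure _ (Measure.restrict_mono Ioo_subset_Icc_self le_rfl)
    exact (Continuous.continuousOn (by fun_prop)).integrableOn_Icc
  · filter_upwards [ae_restrict_mem measurableSet_Ioo] with u hu
    have : 0 ≤ 1 - u := by linarith [hu.2]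
    simp only [Pi.zero_apply]
    positivity

lemma tau_compl (k : ℕ) : tau k (Ioo (0 : ℝ) 1)ᶜ = 0 := by
  unfold tau
  rw [withDensity_apply _ measurableSet_Ioo.compl, Measure.restrict_restrict
    measurableSet_Ioo.compl, compl_inter_self]
  simp

lemma tau_ae (k : ℕ) : ∀ᵐ u ∂(tau k), u ∈ Ioo (0 : ℝ) 1 := tau_compl k

instance (k : ℕ) : IsProbabilityMeasure (tau k) := by
  constructor
  have h := tau_Ioo k (a := 0) le_rfl zero_le_one
  have h2 : tau k univ = tau k (Ioo 0 1) := by
    rw [← union_compl_self (Ioo (0 : ℝ) 1)]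
    apply le_antisymm
    · refine (measure_union_le _ _).trans ?_
      rw [tau_compl, add_zero]
    · exact measure_mono subset_union_left
  rw [h2, h]
  simp

variable (μ) in
omit [IsProbabilityMeasure μ] in
lemma aemeasurable_quantile (k : ℕ) : AEMeasurable (quantile μ) (tau k) := by
  have h : AEMeasurable (quantile μ) (volume.restrict (Ioo (0 : ℝ) 1)) :=
    aemeasurable_restrict_of_monotoneOn measurableSet_Ioo quantile_mono
  exact h.mono_ac (withDensity_absolutelyContinuous _ _)

/-- the law of the minimum of `k + 1` independent copies is the image of `tau k` under the quantile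
function -/
lemma map_quantile (k : ℕ) : Measure.map (quantile μ) (tau k) =
    Measure.map (fun x : Fin (k + 1) → ℝ => ⨅ i, x i) (Measure.pi fun _ => μ) := by
  have hm : Measurable (fun x : Fin (k + 1) → ℝ => ⨅ i, x i) :=
    Measurable.iInf fun i => measurable_pi_apply i
  have i1 : IsProbabilityMeasure (Measure.map (quantile μ) (tau k)) :=
    Measure.isProbabilityMeasure_map (aemeasurable_quantile μ k)
  have i2 : IsProbabilityMeasure
      (Measure.map (fun x : Fin (k + 1) → ℝ => ⨅ i, x i) (Measure.pi fun _ => μ)) :=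
    Measure.isProbabilityMeasure_map hm.aemeasurable
  apply ext_Ioi
  intro t
  rw [Measure.map_apply_of_aemeasurable (aemeasurable_quantile μ k) measurableSet_Ioi,
    Measure.map_apply hm measurableSet_Ioi]
  have h1 : (fun x : Fin (k + 1) → ℝ => ⨅ i, x i) ⁻¹' (Ioi t) = Set.pi univ fun _ => Ioi t := by
    ext x
    simp only [mem_preimage, mem_Ioi, mem_univ_pi]
    constructor
    · intro h i
      exact lt_of_lt_of_le h (ciInf_le (Set.finite_range x).bddBelow i)
    · intro h
      obtain ⟨i, hi⟩ := exists_eq_ciInf_of_finite (f := x)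
      rw [← hi]
      exact h i
  rw [h1, Measure.pi_pi, Finset.prod_const, Finset.card_univ, Fintype.card_fin]
  have h2 : tau k (quantile μ ⁻¹' Ioi t) = tau k (Ioo (cdf μ t) 1) := by
    apply measure_congr
    filter_upwards [tau_ae k] with u hu
    apply propext
    change t < quantile μ u ↔ cdf μ t < u ∧ u < 1
    rw [lt_quantile_iff hu]
    exact ⟨fun h => ⟨h, hu.2⟩, fun h => h.1⟩
  rw [h2, tau_Ioo k (cdf_nonneg μ t) (cdf_le_one μ t), ← compl_Iic,
    prob_compl_eq_one_sub measurableSet_Iic, ← ofReal_cdf, ENNReal.ofReal_pow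
    (by linarith [cdf_le_one μ t]), ENNReal.ofReal_sub _ (cdf_nonneg μ t), ENNReal.ofReal_one]

lemma minMean_eq (k : ℕ) : minMean (k + 1) μ =
    ∫ u in Ioo (0 : ℝ) 1, ((k : ℝ) + 1) * (1 - u) ^ k * quantile μ u := by
  unfold minMean
  have hm : Measurable (fun x : Fin (k + 1) → ℝ => ⨅ i, x i) :=
    Measurable.iInf fun i => measurable_pi_apply i
  have h1 : ∫ x : Fin (k + 1) → ℝ, (⨅ i, x i) ∂(Measure.pi fun _ => μ) =
      ∫ y, y ∂(Measure.map (fun x : Fin (k + 1) → ℝ => ⨅ i, x i) (Measure.pi fun _ => μ)) :=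
    (integral_map (f := fun y => y) hm.aemeasurable measurable_id.aestronglyMeasurable).symm
  rw [h1, ← map_quantile, integral_map (f := fun y => y) (aemeasurable_quantile μ k)
    measurable_id.aestronglyMeasurable]
  unfold tau
  rw [integral_withDensity_eq_integral_toReal_smul (by fun_prop) (by simp)]
  apply setIntegral_congr_fun measurableSet_Ioo
  intro u hu
  have : 0 ≤ 1 - u := by linarith [hu.2]
  simp only [smul_eq_mul]
  rw [ENNReal.toReal_ofReal (by positivity)]

end quantile

section primitives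
variable {μ : Measure ℝ} [IsProbabilityMeasure μ]

lemma tau_zero : tau 0 = volume.restrict (Ioo (0 : ℝ) 1) := by
  unfold tau
  simp

variable (μ) in
lemma map_quantile_restrict :
    Measure.map (quantile μ) (volume.restrict (Ioo (0 : ℝ) 1)) = μ := by
  rw [← tau_zero, map_quantile]
  have h : (fun x : Fin (0 + 1) → ℝ => ⨅ i, x i) = Function.eval 0 := by
    funext x
    exact ciInf_unique (ι := Fin 1) (s := x)
  rw [h]
  exact (measurePreserving_eval (fun _ : Fin (0 + 1) => μ) 0).map_eq

lemma integrableOn_quantile (h : Integrable (fun x => x) μ) :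
    IntegrableOn (quantile μ) (Ioo (0 : ℝ) 1) := by
  have h1 : AEMeasurable (quantile μ) (volume.restrict (Ioo (0 : ℝ) 1)) :=
    aemeasurable_restrict_of_monotoneOn measurableSet_Ioo quantile_mono
  have h2 : Integrable (fun x => x) (Measure.map (quantile μ) (volume.restrict (Ioo (0 : ℝ) 1))) := by
    rw [map_quantile_restrict]
    exact h
  exact (integrable_map_measure (f := quantile μ) (g := fun x => x)
    measurable_id.aestronglyMeasurable h1).1 h2

lemma integrableOn_Icc_quantile (h : Integrable (fun x => x) μ) :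
    IntegrableOn (quantile μ) (Icc (0 : ℝ) 1) := by
  rw [integrableOn_Icc_iff_integrableOn_Ioo]
  exact integrableOn_quantile h

lemma continuousOn_invCdf_one (h : Integrable (fun x => x) μ) :
    ContinuousOn (invCdf μ 1) (Icc 0 1) := by
  have h1 : IntegrableOn (quantile μ) (uIcc (0 : ℝ) 1) := by
    rw [uIcc_of_le zero_le_one]
    exact integrableOn_Icc_quantile h
  have := intervalIntegral.continuousOn_primitive_interval h1
  rwa [uIcc_of_le zero_le_one] at this

lemma continuousOn_invCdf_two (h : Integrable (fun x => x) μ) :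
    ContinuousOn (invCdf μ 2) (Icc 0 1) := by
  have h1 : IntegrableOn (invCdf μ 1) (uIcc (0 : ℝ) 1) := by
    rw [uIcc_of_le zero_le_one]
    exact (continuousOn_invCdf_one h).integrableOn_Icc
  have := intervalIntegral.continuousOn_primitive_interval h1
  rwa [uIcc_of_le zero_le_one] at this

/-- `F^[-3](1) = ∫₀¹ (1 - u) F⁻¹(u) du` -/
lemma invCdf_two_one (h : Integrable (fun x => x) μ) :
    invCdf μ 2 1 = ∫ u in Ioo (0 : ℝ) 1, (1 - u) * quantile μ u := by
  have e1 : invCdf μ 2 1 = ∫ u in Ioo (0 : ℝ) 1, ∫ t in Ioo (0 : ℝ) 1,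
      (if t ≤ u then quantile μ t else 0) := by
    change ∫ u in (0 : ℝ)..1, invCdf μ 1 u = _
    rw [intervalIntegral.integral_of_le zero_le_one, integral_Ioc_eq_integral_Ioo]
    apply setIntegral_congr_fun measurableSet_Ioo
    intro u hu
    change ∫ t in (0 : ℝ)..u, quantile μ t = _
    rw [intervalIntegral.integral_of_le hu.1.le]
    have : (fun t => if t ≤ u then quantile μ t else 0) =
        (Iic u).indicator (quantile μ) := by
      funext t
      simp [indicator]
    beta_reduce
    rw [this, setIntegral_indicator measurableSet_Iic]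
    congr 2
    ext t
    simp only [mem_Ioc, mem_inter_iff, mem_Ioo, mem_Iic]
    constructor
    · rintro ⟨h1, h2⟩
      exact ⟨⟨h1, by linarith [hu.2]⟩, h2⟩
    · rintro ⟨h1, h2⟩
      exact ⟨h1.1, h2⟩
  rw [e1, integral_integral_swap]
  · apply setIntegral_congr_fun measurableSet_Ioo
    intro t ht
    have : (fun u => if t ≤ u then quantile μ t else 0) =
        (Ici t).indicator (fun _ => quantile μ t) := by
      funext u
      simp [indicator]
    simp only
    rw [this, setIntegral_indicator measurableSet_Ici]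
    have h2 : Ioo (0 : ℝ) 1 ∩ Ici t = Ico t 1 := by
      ext u
      simp only [mem_Ico, mem_inter_iff, mem_Ioo, mem_Ici]
      constructor
      · rintro ⟨h1, h2⟩
        exact ⟨h2, h1.2⟩
      · rintro ⟨h1, h2⟩
        exact ⟨⟨by linarith [ht.1], h2⟩, h1⟩
    rw [h2]
    simp only [integral_const, MeasurableSet.univ, measureReal_restrict_apply, univ_inter,
      smul_eq_mul]
    rw [Real.volume_real_Ico_of_le ht.2.le]
  · have h1 : Integrable (fun p : ℝ × ℝ => quantile μ p.2)
        ((volume.restrict (Ioo (0 : ℝ) 1)).prod (volume.restrict (Ioo (0 : ℝ) 1))) :=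
      Integrable.comp_snd (integrableOn_quantile h) _
    have h2 : Function.uncurry (fun u t : ℝ => if t ≤ u then quantile μ t else 0) =
        {p : ℝ × ℝ | p.2 ≤ p.1}.indicator (fun p => quantile μ p.2) := by
      funext p
      simp [Function.uncurry, indicator]
    rw [h2]
    exact h1.indicator (measurableSet_le measurable_snd measurable_fst)

lemma minMean_two (h : Integrable (fun x => x) μ) : minMean 2 μ = 2 * invCdf μ 2 1 := by
  rw [invCdf_two_one h, ← integral_const_mul, minMean_eq]
  apply setIntegral_congr_fun measurableSet_Ioo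
  intro u hu
  simp only [pow_one]
  push_cast
  ring

end primitives

/-- passing to the limit `p → 1` -/
lemma minMean_le_of_ISDle {α β : Measure ℝ} [IsProbabilityMeasure α] [IsProbabilityMeasure β]
    (ha : Integrable (fun x => x) α) (hb : Integrable (fun x => x) β) (h : ISDle 3 α β) :
    minMean 2 α ≤ minMean 2 β := by
  rw [minMean_two ha, minMean_two hb]
  have h1 : Tendsto (invCdf α 2) (𝓝[Ioo 0 1] 1) (𝓝 (invCdf α 2 1)) :=
    ((continuousOn_invCdf_two ha) 1 (by simp)).mono_left (nhdsWithin_mono _ Ioo_subset_Icc_self)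
  have h2 : Tendsto (invCdf β 2) (𝓝[Ioo 0 1] 1) (𝓝 (invCdf β 2 1)) :=
    ((continuousOn_invCdf_two hb) 1 (by simp)).mono_left (nhdsWithin_mono _ Ioo_subset_Icc_self)
  have : (𝓝[Ioo (0 : ℝ) 1] 1).NeBot := by
    rw [← mem_closure_iff_nhdsWithin_neBot, closure_Ioo zero_ne_one]
    simp
  have h3 := le_of_tendsto_of_tendsto h1 h2 (by
    filter_upwards [self_mem_nhdsWithin] with p hp
    exact h p hp)
  linarith

lemma integrable_min {α : Measure ℝ} [IsProbabilityMeasure α] (ha : Integrable (fun x => x) α)
    (a : ℝ) : Integrable (fun y => min a y) α :=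
  (integrable_const a).inf ha

/-- `Φ(a) = E min(a, X)` -/
noncomputable def phi (μ : Measure ℝ) (a : ℝ) : ℝ := ∫ y, min a y ∂μ

/-- `E min(X + s, X')` -/
noncomputable def mfun (μ : Measure ℝ) (s : ℝ) : ℝ := ∫ x, phi μ (x + s) ∂μ

lemma phi_lipschitz {α : Measure ℝ} [IsProbabilityMeasure α] (ha : Integrable (fun x => x) α)
    (a b : ℝ) : |phi α a - phi α b| ≤ |a - b| := by
  unfold phi
  rw [← integral_sub (integrable_min ha a) (integrable_min ha b)]
  calc |∫ y, (min a y - min b y) ∂α| ≤ ∫ y, |min a y - min b y| ∂α := abs_integral_le_integral_abs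
    _ ≤ ∫ y, |a - b| ∂α := by
        apply integral_mono_ae ((integrable_min ha a).sub (integrable_min ha b)).abs
          (integrable_const _)
        filter_upwards with y
        have := abs_min_sub_min_le_max a y b y
        simpa using this
    _ = |a - b| := by simp

lemma continuous_phi {α : Measure ℝ} [IsProbabilityMeasure α] (ha : Integrable (fun x => x) α) :
    Continuous (phi α) := by
  have : LipschitzWith 1 (phi α) := LipschitzWith.of_dist_le_mul fun a b => by
    simpa [Real.dist_eq] using phi_lipschitz ha a b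
  exact this.continuous

lemma abs_phi_le {α : Measure ℝ} [IsProbabilityMeasure α] (ha : Integrable (fun x => x) α)
    (a : ℝ) : |phi α a| ≤ |a| + |phi α 0| := by
  have h1 := phi_lipschitz ha a 0
  have h2 : |phi α a| ≤ |phi α a - phi α 0| + |phi α 0| := by
    calc |phi α a| = |(phi α a - phi α 0) + phi α 0| := by ring_nf
      _ ≤ _ := abs_add_le _ _
  simp only [sub_zero] at h1
  linarith

lemma integrable_phi_comp {α : Measure ℝ} [IsProbabilityMeasure α]
    (ha : Integrable (fun x => x) α) {Ω : Type*} [MeasurableSpace Ω] {P : Measure Ω}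
    [IsFiniteMeasure P] {f : Ω → ℝ} (hf : Integrable f P) : Integrable (fun w => phi α (f w)) P := by
  have h1 : Integrable (fun w => |f w| + |phi α 0|) P := hf.abs.add (integrable_const _)
  refine h1.mono' ?_ ?_
  · exact (continuous_phi ha).comp_aestronglyMeasurable hf.aestronglyMeasurable
  · filter_upwards with w
    exact abs_phi_le ha _

lemma minMean_two_prod {α : Measure ℝ} [IsProbabilityMeasure α]
    (ha : Integrable (fun x => x) α) : minMean 2 α = ∫ x, phi α x ∂α := by
  unfold minMean phi
  have h1 : ∫ x : Fin 2 → ℝ, (⨅ i, x i) ∂(Measure.pi fun _ => α) =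
      ∫ p : ℝ × ℝ, min p.1 p.2 ∂(α.prod α) := by
    rw [← (measurePreserving_finTwoArrow α).integral_comp' (fun p : ℝ × ℝ => min p.1 p.2)]
    congr 1
    funext x
    change (⨅ i, x i) = min (x 0) (x 1)
    apply le_antisymm
    · exact le_min (ciInf_le (Set.finite_range x).bddBelow 0)
        (ciInf_le (Set.finite_range x).bddBelow 1)
    · apply le_ciInf
      intro i
      fin_cases i
      · exact min_le_left _ _
      · exact min_le_right _ _
  rw [h1, integral_prod]
  exact (Integrable.comp_fst ha α).inf (Integrable.comp_snd ha α)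

lemma integrable_conv {μ ρ : Measure ℝ} [IsProbabilityMeasure μ] [IsProbabilityMeasure ρ]
    (hμ : Integrable (fun x => x) μ) (hρ : Integrable (fun x => x) ρ) :
    Integrable (fun x => x) (μ ∗ ρ) := by
  unfold Measure.conv
  exact (integrable_map_measure (g := fun x => x) measurable_id.aestronglyMeasurable
    (by fun_prop)).2 ((Integrable.comp_fst hμ ρ).add (Integrable.comp_snd hρ μ))

/-- `E min(a, X + Z) = E (Z + Φ(a - Z))` -/
lemma phi_conv {μ ρ : Measure ℝ} [IsProbabilityMeasure μ] [IsProbabilityMeasure ρ]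
    (hμ : Integrable (fun x => x) μ) (hρ : Integrable (fun x => x) ρ) (a : ℝ) :
    phi (ρ ∗ μ) a = ∫ z, (z + phi μ (a - z)) ∂ρ := by
  unfold phi
  rw [integral_conv (integrable_min (integrable_conv hρ hμ) a)]
  congr 1
  funext z
  have h1 : z = ∫ x, z ∂μ := by simp
  conv_rhs => lhs; rw [h1]
  rw [← integral_add (integrable_const _) (integrable_min hμ _)]
  congr 1
  funext x
  rw [← min_add_add_left]
  congr 1
  ring

/-- `E min(X + Z, X' + Z') = E (Z' + m(Z - Z'))` -/
lemma minMean_conv {μ ρ : Measure ℝ} [IsProbabilityMeasure μ] [IsProbabilityMeasure ρ]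
    (hμ : Integrable (fun x => x) μ) (hρ : Integrable (fun x => x) ρ) :
    minMean 2 (μ ∗ ρ) = ∫ z, ∫ z', (z' + mfun μ (z - z')) ∂ρ ∂ρ := by
  rw [Measure.conv_comm, minMean_two_prod (integrable_conv hρ hμ)]
  rw [integral_conv (integrable_phi_comp (integrable_conv hρ hμ) (integrable_conv hρ hμ))]
  congr 1
  funext z
  have h1 : ∀ x, phi (ρ ∗ μ) (z + x) = ∫ z', (z' + phi μ (x + (z - z'))) ∂ρ := by
    intro x
    rw [phi_conv hμ hρ]
    congr 1
    funext z'
    congr 2
    ring
  have hI : Integrable (fun p : ℝ × ℝ => (p.2 + phi μ (p.1 + (z - p.2)))) (μ.prod ρ) := by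
    have e1 : Integrable (fun p : ℝ × ℝ => p.1) (μ.prod ρ) := Integrable.comp_fst hμ ρ
    have e2 : Integrable (fun p : ℝ × ℝ => p.2) (μ.prod ρ) := Integrable.comp_snd hρ μ
    refine e2.add (integrable_phi_comp hμ (e1.add ((integrable_const z).sub e2)))
  simp_rw [h1]
  rw [integral_integral_swap (f := fun x z' => z' + phi μ (x + (z - z')))]
  · congr 1
    funext z'
    rw [integral_add (integrable_const _)]
    · simp [mfun]
    · exact integrable_phi_comp hμ (hμ.add (integrable_const _))
  · exact hI

/-- `m(s) = s + m(-s)` -/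
lemma mfun_neg {μ : Measure ℝ} [IsProbabilityMeasure μ] (hμ : Integrable (fun x => x) μ) (s : ℝ) :
    mfun μ s = s + mfun μ (-s) := by
  unfold mfun phi
  have hI : Integrable (fun p : ℝ × ℝ => min (p.1 + s) p.2) (μ.prod μ) :=
    ((Integrable.comp_fst hμ μ).add (integrable_const s)).inf (Integrable.comp_snd hμ μ)
  rw [integral_integral_swap (f := fun x y => min (x + s) y) hI]
  have h1 : s = ∫ x, s ∂μ := by simp
  conv_rhs => lhs; rw [h1]
  rw [← integral_add (integrable_const _)]
  · congr 1
    funext y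
    conv_rhs => lhs; rw [h1]
    rw [← integral_add (integrable_const _) (integrable_min hμ _)]
    congr 1
    funext x
    rw [← min_add_add_left, min_comm]
    congr 1 <;> ring
  · exact integrable_phi_comp hμ (hμ.add (integrable_const _))

/-- the law of `q(U)`, `U` uniform on `(0, 1)` -/
noncomputable def law (q : ℝ → ℝ) : Measure ℝ := Measure.map q (volume.restrict (Ioo (0 : ℝ) 1))

instance : IsProbabilityMeasure (volume.restrict (Ioo (0 : ℝ) 1)) := by
  constructor
  simp

section law
variable {q : ℝ → ℝ} (hm : Measurable q)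

include hm in
lemma isProb_law : IsProbabilityMeasure (law q) := Measure.isProbabilityMeasure_map hm.aemeasurable

include hm in
/-- the quantile function of the law of `q(U)` is `q` if `q` is increasing and continuous -/
lemma quantile_law (hmono : MonotoneOn q (Ioo 0 1)) (hc : ContinuousOn q (Ioo 0 1)) {p : ℝ}
    (hp : p ∈ Ioo (0 : ℝ) 1) : quantile (law q) p = q p := by
  have : IsProbabilityMeasure (law q) := isProb_law hm
  have hcdf : ∀ x, cdf (law q) x = (volume.restrict (Ioo (0 : ℝ) 1)).real {u | q u ≤ x} := by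
    intro x
    rw [cdf_eq_real, law, map_measureReal_apply hm measurableSet_Iic]
    rfl
  apply eq_of_forall_ge_iff
  intro x
  rw [quantile_le_iff hp, hcdf]
  constructor
  · intro h
    by_contra hlt
    push Not at hlt
    -- choose p' < p with x < q p'
    have h1 : ∀ᶠ r in 𝓝 p, x < q r :=
      (hc.continuousAt (Ioo_mem_nhds hp.1 hp.2)).eventually (lt_mem_nhds hlt)
    have h2 : ∀ᶠ r in 𝓝[<] p, x < q r ∧ 0 < r ∧ r < p := by
      filter_upwards [nhdsWithin_le_nhds h1, nhdsWithin_le_nhds (lt_mem_nhds hp.1),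
        self_mem_nhdsWithin] with r hr1 hr2 hr3
      exact ⟨hr1, hr2, hr3⟩
    obtain ⟨r, hr1, hr2, hr3⟩ := h2.exists
    have h3 : (volume.restrict (Ioo (0 : ℝ) 1)).real {u | q u ≤ x} ≤ r := by
      calc (volume.restrict (Ioo (0 : ℝ) 1)).real {u | q u ≤ x}
          ≤ volume.real (Ioo 0 r) := by
            rw [measureReal_restrict_apply (measurableSet_le hm measurable_const)]
            have hsub : {u | q u ≤ x} ∩ Ioo (0 : ℝ) 1 ⊆ Ioo 0 r := by
              rintro u ⟨hu1, hu2⟩
              refine ⟨hu2.1, ?_⟩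
              by_contra hur
              push Not at hur
              have := hmono ⟨hr2, by linarith [hp.2]⟩ hu2 hur
              have hu3 : q u ≤ x := hu1
              linarith
            have hfin : volume (Ioo 0 r) ≠ ⊤ := by simp
            exact measureReal_mono hsub hfin
        _ = r := by
            rw [Real.volume_real_Ioo_of_le hr2.le]
            ring
    linarith
  · intro h
    calc p = volume.real (Ioo 0 p) := by
            rw [Real.volume_real_Ioo_of_le hp.1.le]
            ring
      _ ≤ (volume.restrict (Ioo (0 : ℝ) 1)).real {u | q u ≤ x} := by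
            rw [measureReal_restrict_apply (measurableSet_le hm measurable_const)]
            have hsub : Ioo 0 p ⊆ {u | q u ≤ x} ∩ Ioo (0 : ℝ) 1 := by
              rintro u ⟨hu1, hu2⟩
              refine ⟨?_, hu1, by linarith [hp.2]⟩
              exact (hmono ⟨hu1, by linarith [hp.2]⟩ hp hu2.le).trans h
            have hfin : volume ({u | q u ≤ x} ∩ Ioo (0 : ℝ) 1) ≠ ⊤ :=
              ne_of_lt (lt_of_le_of_lt (measure_mono inter_subset_right) (by simp))
            exact measureReal_mono hsub hfin

include hm in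
lemma integral_law {f : ℝ → ℝ} (hf : Continuous f) :
    ∫ x, f x ∂(law q) = ∫ u in (0 : ℝ)..1, f (q u) := by
  rw [law, integral_map hm.aemeasurable hf.aestronglyMeasurable,
    intervalIntegral.integral_of_le zero_le_one, integral_Ioc_eq_integral_Ioo]

include hm in
lemma integrable_law (h : IntervalIntegrable q volume 0 1) : Integrable (fun x => x) (law q) := by
  rw [law]
  refine (integrable_map_measure (g := fun x => x) measurable_id.aestronglyMeasurable
    hm.aemeasurable).2 ?_
  rw [intervalIntegrable_iff_integrableOn_Ioo_of_le zero_le_one] at h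
  exact h

include hm in
lemma minMean_law (hmono : MonotoneOn q (Ioo 0 1)) (hc : ContinuousOn q (Ioo 0 1)) (k : ℕ) :
    minMean (k + 1) (law q) = ∫ u in (0 : ℝ)..1, ((k : ℝ) + 1) * (1 - u) ^ k * q u := by
  have : IsProbabilityMeasure (law q) := isProb_law hm
  rw [minMean_eq, intervalIntegral.integral_of_le zero_le_one, integral_Ioc_eq_integral_Ioo]
  apply setIntegral_congr_fun measurableSet_Ioo
  intro u hu
  simp only
  rw [quantile_law hm hmono hc hu]

end law

/-! ## The two laws -/

/-- quantile function of the uniform law on `(0, 3)` -/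
noncomputable def q1 (u : ℝ) : ℝ := 3 * u

/-- quantile function of `5/2 - E`, `E` exponential of mean `1` -/
noncomputable def q2 (u : ℝ) : ℝ := 5 / 2 + Real.log u

lemma q1_meas : Measurable q1 := by unfold q1; fun_prop
lemma q2_meas : Measurable q2 := by unfold q2; fun_prop

lemma q1_mono : MonotoneOn q1 (Ioo 0 1) := by
  intro a _ b _ hab
  unfold q1
  linarith

lemma q2_mono : MonotoneOn q2 (Ioo 0 1) := by
  intro a ha b _ hab
  unfold q2
  have := Real.log_le_log ha.1 hab
  linarith

lemma q1_cont : ContinuousOn q1 (Ioo 0 1) := by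
  unfold q1
  fun_prop

lemma q2_cont : ContinuousOn q2 (Ioo 0 1) := by
  unfold q2
  refine continuousOn_const.add (Real.continuousOn_log.mono ?_)
  intro x hx
  simpa using hx.1.ne'

lemma q1_int (a b : ℝ) : IntervalIntegrable q1 volume a b := by
  unfold q1
  exact Continuous.intervalIntegrable (by fun_prop) _ _

lemma q2_int (a b : ℝ) : IntervalIntegrable q2 volume a b := by
  unfold q2
  exact (Continuous.intervalIntegrable (by fun_prop) _ _).add
    intervalIntegral.intervalIntegrable_log'

lemma log_int (c0 c1 c2 a : ℝ) (ha : 0 ≤ a) :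
    ∫ u in (0 : ℝ)..a, (c0 + c1 * u + c2 * u ^ 2) * Real.log u =
      (c0 * a + c1 * a ^ 2 / 2 + c2 * a ^ 3 / 3) * Real.log a -
        (c0 * a + c1 * a ^ 2 / 4 + c2 * a ^ 3 / 9) := by
  have h := intervalIntegral.integral_eq_sub_of_hasDerivAt_of_le (a := 0) (b := a) ha
    (f := fun u => (c0 + c1 * u / 2 + c2 * u ^ 2 / 3) * (u * Real.log u) -
        (c0 * u + c1 * u ^ 2 / 4 + c2 * u ^ 3 / 9))
    (f' := fun u => (c0 + c1 * u + c2 * u ^ 2) * Real.log u) ?_ ?_ ?_
  · rw [h]
    simp only [mul_zero, zero_div, Real.log_zero]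
    ring
  · apply Continuous.continuousOn
    exact (Continuous.mul (by fun_prop) Real.continuous_mul_log).sub (by fun_prop)
  · intro u hu
    have hu0 : u ≠ 0 := hu.1.ne'
    have e1 : HasDerivAt (fun u : ℝ => u * Real.log u) (Real.log u + 1) u :=
      Real.hasDerivAt_mul_log hu0
    have e2 : HasDerivAt (fun u : ℝ => c0 + c1 * u / 2 + c2 * u ^ 2 / 3)
        (c1 / 2 + c2 * (2 * u) / 3) u := by
      have a1 : HasDerivAt (fun u : ℝ => c1 * u / 2) (c1 / 2) u := by
        simpa using ((hasDerivAt_id u).const_mul c1).div_const 2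
      have a2 : HasDerivAt (fun u : ℝ => c2 * u ^ 2 / 3) (c2 * (2 * u) / 3) u := by
        simpa using ((hasDerivAt_pow 2 u).const_mul c2).div_const 3
      exact (a1.const_add c0).add a2
    have e3 : HasDerivAt (fun u : ℝ => c0 * u + c1 * u ^ 2 / 4 + c2 * u ^ 3 / 9)
        (c0 + c1 * (2 * u) / 4 + c2 * (3 * u ^ 2) / 9) u := by
      have a1 : HasDerivAt (fun u : ℝ => c0 * u) c0 u := by
        simpa using ((hasDerivAt_id u).const_mul c0)
      have a2 : HasDerivAt (fun u : ℝ => c1 * u ^ 2 / 4) (c1 * (2 * u) / 4) u := by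
        simpa using ((hasDerivAt_pow 2 u).const_mul c1).div_const 4
      have a3 : HasDerivAt (fun u : ℝ => c2 * u ^ 3 / 9) (c2 * (3 * u ^ 2) / 9) u := by
        simpa using ((hasDerivAt_pow 3 u).const_mul c2).div_const 9
      exact (a1.add a2).add a3
    refine ((e2.fun_mul e1).fun_sub e3).congr_deriv ?_
    field_simp
    ring
  · exact intervalIntegral.intervalIntegrable_log'.continuousOn_mul
      (Continuous.continuousOn (by fun_prop))

lemma mean_q1 : minMean 1 (law q1) = 3 / 2 := by
  rw [minMean_law q1_meas q1_mono q1_cont 0]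
  have : (fun u : ℝ => (((0 : ℕ) : ℝ) + 1) * (1 - u) ^ 0 * q1 u) = fun u => 3 * u := by
    funext u
    simp [q1]
  rw [this]
  rw [intervalIntegral.integral_const_mul, integral_id]
  norm_num

lemma mean_q1_two : minMean 2 (law q1) = 1 := by
  rw [minMean_law q1_meas q1_mono q1_cont 1]
  have : (fun u : ℝ => (((1 : ℕ) : ℝ) + 1) * (1 - u) ^ 1 * q1 u) = fun u => 6 * u - 6 * u ^ 2 := by
    funext u
    simp only [q1]
    push_cast
    ring
  rw [this, intervalIntegral.integral_sub (Continuous.intervalIntegrable (by fun_prop) _ _)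
    (Continuous.intervalIntegrable (by fun_prop) _ _), intervalIntegral.integral_const_mul,
    intervalIntegral.integral_const_mul, integral_id, integral_pow]
  norm_num

lemma mean_q1_three : minMean 3 (law q1) = 3 / 4 := by
  rw [minMean_law q1_meas q1_mono q1_cont 2]
  have : (fun u : ℝ => (((2 : ℕ) : ℝ) + 1) * (1 - u) ^ 2 * q1 u) =
      fun u => 9 * u - 18 * u ^ 2 + 9 * u ^ 3 := by
    funext u
    simp only [q1]
    push_cast
    ring
  rw [this, intervalIntegral.integral_add (Continuous.intervalIntegrable (by fun_prop) _ _)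
    (Continuous.intervalIntegrable (by fun_prop) _ _),
    intervalIntegral.integral_sub (Continuous.intervalIntegrable (by fun_prop) _ _)
    (Continuous.intervalIntegrable (by fun_prop) _ _), intervalIntegral.integral_const_mul,
    intervalIntegral.integral_const_mul, intervalIntegral.integral_const_mul, integral_id,
    integral_pow, integral_pow]
  norm_num

lemma mean_q2_aux (c0 c1 c2 : ℝ) : ∫ u in (0 : ℝ)..1, (c0 + c1 * u + c2 * u ^ 2) * q2 u =
    5 / 2 * (c0 + c1 / 2 + c2 / 3) - (c0 + c1 / 4 + c2 / 9) := by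
  have : (fun u : ℝ => (c0 + c1 * u + c2 * u ^ 2) * q2 u) =
      fun u => ((5 / 2 * c0 + 5 / 2 * c1 * u + 5 / 2 * c2 * u ^ 2) +
        (c0 + c1 * u + c2 * u ^ 2) * Real.log u) := by
    funext u
    simp only [q2]
    ring
  rw [this, intervalIntegral.integral_add (Continuous.intervalIntegrable (by fun_prop) _ _)
    (intervalIntegral.intervalIntegrable_log'.continuousOn_mul
      (Continuous.continuousOn (by fun_prop))), log_int _ _ _ _ zero_le_one,
    intervalIntegral.integral_add (Continuous.intervalIntegrable (by fun_prop) _ _)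
    (Continuous.intervalIntegrable (by fun_prop) _ _),
    intervalIntegral.integral_add (Continuous.intervalIntegrable (by fun_prop) _ _)
    (Continuous.intervalIntegrable (by fun_prop) _ _),
    intervalIntegral.integral_const_mul (5 / 2 * c1),
    intervalIntegral.integral_const_mul (5 / 2 * c2), integral_id, integral_pow,
    intervalIntegral.integral_const]
  simp only [Real.log_one, smul_eq_mul]
  norm_num
  ring

lemma mean_q2 : minMean 1 (law q2) = 3 / 2 := by
  rw [minMean_law q2_meas q2_mono q2_cont 0]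
  have : (fun u : ℝ => (((0 : ℕ) : ℝ) + 1) * (1 - u) ^ 0 * q2 u) =
      fun u => (1 + 0 * u + 0 * u ^ 2) * q2 u := by
    funext u
    simp
  rw [this, mean_q2_aux]
  norm_num

lemma mean_q2_two : minMean 2 (law q2) = 1 := by
  rw [minMean_law q2_meas q2_mono q2_cont 1]
  have : (fun u : ℝ => (((1 : ℕ) : ℝ) + 1) * (1 - u) ^ 1 * q2 u) =
      fun u => (2 + (-2) * u + 0 * u ^ 2) * q2 u := by
    funext u
    push_cast
    ring
  rw [this, mean_q2_aux]
  norm_num

lemma mean_q2_three : minMean 3 (law q2) = 2 / 3 := by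
  rw [minMean_law q2_meas q2_mono q2_cont 2]
  have : (fun u : ℝ => (((2 : ℕ) : ℝ) + 1) * (1 - u) ^ 2 * q2 u) =
      fun u => (3 + (-6) * u + 3 * u ^ 2) * q2 u := by
    funext u
    push_cast
    ring
  rw [this, mean_q2_aux]
  norm_num

instance isProb1 : IsProbabilityMeasure (law q1) := isProb_law q1_meas
instance isProb2 : IsProbabilityMeasure (law q2) := isProb_law q2_meas

lemma int1 : Integrable (fun x => x) (law q1) := integrable_law q1_meas (q1_int 0 1)
lemma int2 : Integrable (fun x => x) (law q2) := integrable_law q2_meas (q2_int 0 1)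

lemma phi_q1_of_le {c : ℝ} (hc : 3 ≤ c) : phi (law q1) c = 3 / 2 := by
  unfold phi
  rw [integral_law q1_meas (by fun_prop)]
  have : ∫ u in (0 : ℝ)..1, min c (q1 u) = ∫ u in (0 : ℝ)..1, 3 * u := by
    apply intervalIntegral.integral_congr
    intro u hu
    rw [uIcc_of_le zero_le_one] at hu
    simp only [q1]
    rw [min_eq_right (by linarith [hu.2])]
  rw [this, intervalIntegral.integral_const_mul, integral_id]
  norm_num

lemma phi_q1 {c : ℝ} (hc0 : 0 ≤ c) (hc : c ≤ 3) : phi (law q1) c = 3 / 2 - (3 - c) ^ 2 / 6 := by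
  unfold phi
  rw [integral_law q1_meas (by fun_prop)]
  have hcont : Continuous fun u => min c (q1 u) := by unfold q1; fun_prop
  rw [← intervalIntegral.integral_add_adjacent_intervals (b := c / 3)
    (hcont.intervalIntegrable _ _) (hcont.intervalIntegrable _ _)]
  have h1 : ∫ u in (0 : ℝ)..(c / 3), min c (q1 u) = ∫ u in (0 : ℝ)..(c / 3), 3 * u := by
    apply intervalIntegral.integral_congr
    intro u hu
    rw [uIcc_of_le (by positivity)] at hu
    simp only [q1]
    rw [min_eq_right (by linarith [hu.2])]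
  have h2 : ∫ u in (c / 3)..1, min c (q1 u) = ∫ u in (c / 3)..1, c := by
    apply intervalIntegral.integral_congr
    intro u hu
    rw [uIcc_of_le (by linarith)] at hu
    simp only [q1]
    rw [min_eq_left (by linarith [hu.1])]
  rw [h1, h2, intervalIntegral.integral_const_mul, integral_id, intervalIntegral.integral_const]
  simp only [smul_eq_mul]
  ring

lemma mfun_q1_of_le {s : ℝ} (hs : 3 ≤ s) : mfun (law q1) s = 3 / 2 := by
  unfold mfun
  rw [integral_law q1_meas (f := fun x => phi (law q1) (x + s))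
    ((continuous_phi int1).comp (by fun_prop))]
  have : ∫ u in (0 : ℝ)..1, phi (law q1) (q1 u + s) = ∫ u in (0 : ℝ)..1, (3 / 2 : ℝ) := by
    apply intervalIntegral.integral_congr
    intro u hu
    rw [uIcc_of_le zero_le_one] at hu
    simp only [q1]
    rw [phi_q1_of_le (by linarith [hu.1])]
  rw [this, intervalIntegral.integral_const]
  norm_num

lemma mfun_q1 {s : ℝ} (hs0 : 0 ≤ s) (hs : s ≤ 3) :
    mfun (law q1) s = 3 / 2 - (1 - s / 3) ^ 3 / 2 := by
  unfold mfun
  rw [integral_law q1_meas (f := fun x => phi (law q1) (x + s))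
    ((continuous_phi int1).comp (by fun_prop))]
  have hcont : Continuous fun u => phi (law q1) (q1 u + s) := by
    unfold q1
    exact (continuous_phi int1).comp (by fun_prop)
  rw [← intervalIntegral.integral_add_adjacent_intervals (b := 1 - s / 3)
    (hcont.intervalIntegrable _ _) (hcont.intervalIntegrable _ _)]
  have h1 : ∫ u in (0 : ℝ)..(1 - s / 3), phi (law q1) (q1 u + s) =
      ∫ u in (0 : ℝ)..(1 - s / 3), (3 / 2 - (3 - s) ^ 2 / 6 + (3 - s) * u - 3 / 2 * u ^ 2) := by
    apply intervalIntegral.integral_congr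
    intro u hu
    rw [uIcc_of_le (by linarith)] at hu
    simp only [q1]
    rw [phi_q1 (by linarith [hu.1]) (by linarith [hu.2])]
    ring
  have h2 : ∫ u in (1 - s / 3)..1, phi (law q1) (q1 u + s) = ∫ u in (1 - s / 3)..1, (3 / 2 : ℝ) := by
    apply intervalIntegral.integral_congr
    intro u hu
    rw [uIcc_of_le (by linarith)] at hu
    simp only [q1]
    rw [phi_q1_of_le (by linarith [hu.1])]
  rw [h1, h2, intervalIntegral.integral_sub (Continuous.intervalIntegrable (by fun_prop) _ _)
    (Continuous.intervalIntegrable (by fun_prop) _ _),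
    intervalIntegral.integral_add (Continuous.intervalIntegrable (by fun_prop) _ _)
    (Continuous.intervalIntegrable (by fun_prop) _ _),
    intervalIntegral.integral_const_mul (3 - s), intervalIntegral.integral_const_mul (3 / 2 : ℝ),
    integral_id, integral_pow, intervalIntegral.integral_const, intervalIntegral.integral_const]
  simp only [smul_eq_mul]
  norm_num
  ring

lemma phi_q2_of_le {c : ℝ} (hc : 5 / 2 ≤ c) : phi (law q2) c = 3 / 2 := by
  unfold phi
  rw [integral_law q2_meas (by fun_prop)]
  have : ∫ u in (0 : ℝ)..1, min c (q2 u) = ∫ u in (0 : ℝ)..1, ((5 / 2 : ℝ) + Real.log u) := by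
    apply intervalIntegral.integral_congr
    intro u hu
    rw [uIcc_of_le zero_le_one] at hu
    simp only [q2]
    have := Real.log_nonpos hu.1 hu.2
    rw [min_eq_right (by linarith)]
  rw [this, intervalIntegral.integral_add (Continuous.intervalIntegrable (by fun_prop) _ _)
    intervalIntegral.intervalIntegrable_log', integral_log, intervalIntegral.integral_const]
  simp
  norm_num

lemma phi_q2 {c : ℝ} (hc : c ≤ 5 / 2) : phi (law q2) c = c - Real.exp (c - 5 / 2) := by
  unfold phi
  rw [integral_law q2_meas (by fun_prop)]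
  set e := Real.exp (c - 5 / 2) with he
  have he0 : 0 < e := Real.exp_pos _
  have he1 : e ≤ 1 := Real.exp_le_one_iff.2 (by linarith)
  have hlog : Real.log e = c - 5 / 2 := Real.log_exp _
  have hint : ∀ a b : ℝ, IntervalIntegrable (fun u => min c (q2 u)) volume a b := by
    intro a b
    have k1 : IntervalIntegrable (fun _ => c) volume a b :=
      Continuous.intervalIntegrable (by fun_prop) a b
    have k2 := q2_int a b
    exact ⟨k1.1.inf k2.1, k1.2.inf k2.2⟩
  rw [← intervalIntegral.integral_add_adjacent_intervals (b := e) (hint _ _) (hint _ _)]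
  have h1 : ∫ u in (0 : ℝ)..e, min c (q2 u) = ∫ u in (0 : ℝ)..e, ((5 / 2 : ℝ) + Real.log u) := by
    rw [intervalIntegral.integral_of_le he0.le, intervalIntegral.integral_of_le he0.le]
    apply setIntegral_congr_fun measurableSet_Ioc
    intro u hu
    simp only [q2]
    have := Real.log_le_log hu.1 hu.2
    rw [min_eq_right (by linarith)]
  have h2 : ∫ u in e..1, min c (q2 u) = ∫ u in e..1, c := by
    apply intervalIntegral.integral_congr
    intro u hu
    rw [uIcc_of_le he1] at hu
    simp only [q2]
    have := Real.log_le_log he0 hu.1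
    rw [min_eq_left (by linarith)]
  rw [h1, h2, intervalIntegral.integral_add (Continuous.intervalIntegrable (by fun_prop) _ _)
    intervalIntegral.intervalIntegrable_log', integral_log, intervalIntegral.integral_const,
    intervalIntegral.integral_const, hlog]
  simp only [smul_eq_mul, Real.log_zero]
  ring

lemma mfun_q2 {s : ℝ} (hs0 : 0 ≤ s) :
    mfun (law q2) s = 3 / 2 - Real.exp (-s) / 2 := by
  unfold mfun
  rw [integral_law q2_meas (f := fun x => phi (law q2) (x + s))
    ((continuous_phi int2).comp (by fun_prop))]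
  set e := Real.exp (-s) with he
  have he0 : 0 < e := Real.exp_pos _
  have he1 : e ≤ 1 := Real.exp_le_one_iff.2 (by linarith)
  have hlog : Real.log e = -s := Real.log_exp _
  have hint : ∀ a b : ℝ, IntervalIntegrable (fun u => phi (law q2) (q2 u + s)) volume a b := by
    intro a b
    rw [intervalIntegrable_iff]
    have : IsFiniteMeasure (volume.restrict (uIoc a b)) := by
      constructor
      rw [Measure.restrict_apply_univ, uIoc]
      simp
    exact integrable_phi_comp int2 (((q2_int a b).def').add (integrable_const s))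
  rw [← intervalIntegral.integral_add_adjacent_intervals (b := e) (hint _ _) (hint _ _)]
  have h1 : ∫ u in (0 : ℝ)..e, phi (law q2) (q2 u + s) =
      ∫ u in (0 : ℝ)..e, ((5 / 2 + s - Real.exp s * u) + Real.log u) := by
    rw [intervalIntegral.integral_of_le he0.le, intervalIntegral.integral_of_le he0.le]
    apply setIntegral_congr_fun measurableSet_Ioc
    intro u hu
    simp only [q2]
    have := Real.log_le_log hu.1 hu.2
    rw [phi_q2 (by linarith)]
    have : 5 / 2 + Real.log u + s - 5 / 2 = s + Real.log u := by ring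
    rw [this, Real.exp_add, Real.exp_log hu.1]
    ring
  have h2 : ∫ u in e..1, phi (law q2) (q2 u + s) = ∫ u in e..1, (3 / 2 : ℝ) := by
    apply intervalIntegral.integral_congr
    intro u hu
    rw [uIcc_of_le he1] at hu
    simp only [q2]
    have := Real.log_le_log he0 hu.1
    rw [phi_q2_of_le (by linarith)]
  have hee : Real.exp s * e = 1 := by
    rw [he, ← Real.exp_add]
    simp
  rw [h1, h2, intervalIntegral.integral_add (Continuous.intervalIntegrable (by fun_prop) _ _)
    intervalIntegral.intervalIntegrable_log', integral_log,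
    intervalIntegral.integral_sub (Continuous.intervalIntegrable (by fun_prop) _ _)
    (Continuous.intervalIntegrable (by fun_prop) _ _),
    intervalIntegral.integral_const_mul (Real.exp s), integral_id]
  simp only [intervalIntegral.integral_const, smul_eq_mul, hlog, Real.log_zero]
  linear_combination (-e / 2) * hee

/-- `D(s) = m_X(s) - m_Y(s)` is nonnegative and vanishes only at `0` -/
lemma mfun_lt_of_pos {s : ℝ} (hs : 0 < s) : mfun (law q2) s < mfun (law q1) s := by
  rw [mfun_q2 hs.le]
  have hpos := Real.exp_pos (-s)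
  rcases le_total s 3 with h3 | h3
  · rw [mfun_q1 hs.le h3]
    have h1 : 1 - s / 3 < Real.exp (-(s / 3)) := by
      have := Real.add_one_lt_exp (x := -(s / 3)) (by linarith)
      linarith
    have h2 : (1 - s / 3) ^ 3 < Real.exp (-(s / 3)) ^ 3 :=
      pow_lt_pow_left₀ h1 (by linarith) (by norm_num)
    rw [← Real.exp_nat_mul] at h2
    have h4 : ((3 : ℕ) : ℝ) * (-(s / 3)) = -s := by
      push_cast
      ring
    rw [h4] at h2
    linarith
  · rw [mfun_q1_of_le h3]
    linarith

lemma mfun_zero_eq : mfun (law q2) 0 = mfun (law q1) 0 := by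
  rw [mfun_q2 le_rfl, mfun_q1 le_rfl (by norm_num)]
  norm_num

lemma mfun_lt {s : ℝ} (hs : s ≠ 0) : mfun (law q2) s < mfun (law q1) s := by
  rcases lt_or_gt_of_ne hs with h | h
  · rw [mfun_neg int1, mfun_neg int2]
    have := mfun_lt_of_pos (s := -s) (by linarith)
    linarith
  · exact mfun_lt_of_pos h

lemma mfun_le (s : ℝ) : mfun (law q2) s ≤ mfun (law q1) s := by
  rcases eq_or_ne s 0 with h | h
  · rw [h, mfun_zero_eq]
  · exact (mfun_lt h).le

lemma mfun_lipschitz {α : Measure ℝ} [IsProbabilityMeasure α] (ha : Integrable (fun x => x) α)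
    (a b : ℝ) : |mfun α a - mfun α b| ≤ |a - b| := by
  unfold mfun
  have i1 : ∀ s : ℝ, Integrable (fun x => phi α (x + s)) α := fun s =>
    integrable_phi_comp ha (ha.add (integrable_const s))
  rw [← integral_sub (i1 a) (i1 b)]
  calc |∫ x, (phi α (x + a) - phi α (x + b)) ∂α|
      ≤ ∫ x, |phi α (x + a) - phi α (x + b)| ∂α := abs_integral_le_integral_abs
    _ ≤ ∫ x, |a - b| ∂α := by
        apply integral_mono ((i1 a).sub (i1 b)).abs (integrable_const _)
        intro x
        have := phi_lipschitz ha (x + a) (x + b)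
        simpa using this
    _ = |a - b| := by simp

lemma integrable_mfun_comp {α : Measure ℝ} [IsProbabilityMeasure α]
    (ha : Integrable (fun x => x) α) {Ω : Type*} [MeasurableSpace Ω] {P : Measure Ω}
    [IsFiniteMeasure P] {f : Ω → ℝ} (hf : Integrable f P) : Integrable (fun w => mfun α (f w)) P := by
  have h1 : Integrable (fun w => |f w| + |mfun α 0|) P := hf.abs.add (integrable_const _)
  have hc : Continuous (mfun α) := by
    have : LipschitzWith 1 (mfun α) := LipschitzWith.of_dist_le_mul fun a b => by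
      simpa [Real.dist_eq] using mfun_lipschitz ha a b
    exact this.continuous
  refine h1.mono' ?_ ?_
  · exact hc.comp_aestronglyMeasurable hf.aestronglyMeasurable
  · filter_upwards with w
    have h1 := mfun_lipschitz ha (f w) 0
    have h2 : |mfun α (f w)| ≤ |mfun α (f w) - mfun α 0| + |mfun α 0| := by
      calc |mfun α (f w)| = |(mfun α (f w) - mfun α 0) + mfun α 0| := by ring_nf
        _ ≤ _ := abs_add_le _ _
    simp only [sub_zero] at h1
    rw [Real.norm_eq_abs]
    linarith

/-- if the mean of the minimum of two copies does not get larger for `X + Z` than for `Y + Z`, then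
`Z` is constant -/
lemma eq_dirac_of_le {ρ : Measure ℝ} [IsProbabilityMeasure ρ] (hρ : Integrable (fun x => x) ρ)
    (h : minMean 2 (law q1 ∗ ρ) ≤ minMean 2 (law q2 ∗ ρ)) : ∃ c, ρ = Measure.dirac c := by
  rw [minMean_conv int1 hρ, minMean_conv int2 hρ] at h
  have e1 : Integrable (fun p : ℝ × ℝ => p.1) (ρ.prod ρ) := Integrable.comp_fst hρ ρ
  have e2 : Integrable (fun p : ℝ × ℝ => p.2) (ρ.prod ρ) := Integrable.comp_snd hρ ρ
  have i1 : Integrable (fun p : ℝ × ℝ => p.2 + mfun (law q1) (p.1 - p.2)) (ρ.prod ρ) :=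
    e2.add (integrable_mfun_comp int1 (e1.sub e2))
  have i2 : Integrable (fun p : ℝ × ℝ => p.2 + mfun (law q2) (p.1 - p.2)) (ρ.prod ρ) :=
    e2.add (integrable_mfun_comp int2 (e1.sub e2))
  rw [← integral_prod _ i1, ← integral_prod _ i2, ← sub_nonpos, ← integral_sub i1 i2] at h
  have h0 : 0 ≤ fun p : ℝ × ℝ => (p.2 + mfun (law q1) (p.1 - p.2)) -
      (p.2 + mfun (law q2) (p.1 - p.2)) := by
    intro p
    have := mfun_le (p.1 - p.2)
    simp only [Pi.zero_apply]
    linarith
  have h1 : ∫ p : ℝ × ℝ, ((p.2 + mfun (law q1) (p.1 - p.2)) -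
      (p.2 + mfun (law q2) (p.1 - p.2))) ∂(ρ.prod ρ) = 0 :=
    le_antisymm h (integral_nonneg h0)
  rw [integral_eq_zero_iff_of_nonneg h0 (i1.sub i2)] at h1
  have h2 : ∀ᵐ p : ℝ × ℝ ∂(ρ.prod ρ), p.1 = p.2 := by
    filter_upwards [h1] with p hp
    by_contra hne
    have h3 := mfun_lt (s := p.1 - p.2) (sub_ne_zero.2 hne)
    simp only [Pi.zero_apply] at hp
    linarith
  have h3 := Measure.ae_ae_of_ae_prod h2
  obtain ⟨c, hc⟩ := h3.exists
  refine ⟨c, ?_⟩
  have h4 : Measure.map (fun x => x) ρ = Measure.map (fun _ => c) ρ := by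
    apply Measure.map_congr
    filter_upwards [hc] with x hx
    exact hx.symm
  rw [Measure.map_const] at h4
  simpa using h4

lemma law_conv_dirac {q : ℝ → ℝ} (hm : Measurable q) (c : ℝ) :
    law q ∗ Measure.dirac c = law (fun u => q u + c) := by
  have : IsProbabilityMeasure (law q) := isProb_law hm
  rw [Measure.conv_dirac, law, Measure.map_map (by fun_prop) hm]
  rfl

/-- a strict inequality between the quantile functions near `0` -/
lemma invCdf_two_lt {α β : Measure ℝ} [IsProbabilityMeasure α] [IsProbabilityMeasure β]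
    (ha : Integrable (fun x => x) α) (hb : Integrable (fun x => x) β) {p0 : ℝ}
    (hp0 : p0 ∈ Ioo (0 : ℝ) 1) (h : ∀ u ∈ Ioo (0 : ℝ) p0, quantile β u < quantile α u) :
    invCdf β 2 p0 < invCdf α 2 p0 := by
  have hq : ∀ (γ : Measure ℝ) [IsProbabilityMeasure γ], Integrable (fun x => x) γ →
      ∀ p ∈ Icc (0 : ℝ) 1, IntervalIntegrable (quantile γ) volume 0 p := by
    intro γ _ hγ p hp
    rw [intervalIntegrable_iff_integrableOn_Icc_of_le hp.1]
    exact (integrableOn_Icc_quantile hγ).mono_set (Icc_subset_Icc_right hp.2)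
  have hq1 : ∀ (γ : Measure ℝ) [IsProbabilityMeasure γ], Integrable (fun x => x) γ →
      IntervalIntegrable (invCdf γ 1) volume 0 p0 := by
    intro γ _ hγ
    apply ContinuousOn.intervalIntegrable
    rw [uIcc_of_le hp0.1.le]
    exact (continuousOn_invCdf_one hγ).mono (Icc_subset_Icc_right hp0.2.le)
  have h1 : ∀ p ∈ Ioo (0 : ℝ) p0, invCdf β 1 p < invCdf α 1 p := by
    intro p hp
    have hp' : p ∈ Icc (0 : ℝ) 1 := ⟨hp.1.le, by linarith [hp.2, hp0.2]⟩
    rw [← sub_pos]
    change 0 < (∫ u in (0 : ℝ)..p, quantile α u) - ∫ u in (0 : ℝ)..p, quantile β u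
    rw [← intervalIntegral.integral_sub (hq α ha p hp') (hq β hb p hp')]
    apply intervalIntegral.intervalIntegral_pos_of_pos_on
      ((hq α ha p hp').sub (hq β hb p hp')) _ hp.1
    intro u hu
    exact sub_pos.2 (h u ⟨hu.1, hu.2.trans hp.2⟩)
  rw [← sub_pos]
  change 0 < (∫ u in (0 : ℝ)..p0, invCdf α 1 u) - ∫ u in (0 : ℝ)..p0, invCdf β 1 u
  rw [← intervalIntegral.integral_sub (hq1 α ha) (hq1 β hb)]
  apply intervalIntegral.intervalIntegral_pos_of_pos_on ((hq1 α ha).sub (hq1 β hb)) _ hp0.1
  intro u hu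
  exact sub_pos.2 (h1 u hu)

lemma not_dirac (c : ℝ) : ¬ ISDle 3 (law q1 ∗ Measure.dirac c) (law q2 ∗ Measure.dirac c) := by
  intro h
  have hd : Integrable (fun x => x) (Measure.dirac c) := by
    apply integrable_dirac
    simp
  have i1 := integrable_conv int1 hd
  have i2 := integrable_conv int2 hd
  have hp0 : Real.exp (-5 / 2) ∈ Ioo (0 : ℝ) 1 :=
    ⟨Real.exp_pos _, by rw [Real.exp_lt_one_iff]; norm_num⟩
  have h1 := h _ hp0
  have h2 : invCdf (law q2 ∗ Measure.dirac c) 2 (Real.exp (-5 / 2)) <
      invCdf (law q1 ∗ Measure.dirac c) 2 (Real.exp (-5 / 2)) := by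
    apply invCdf_two_lt i1 i2 hp0
    intro u hu
    have hu' : u ∈ Ioo (0 : ℝ) 1 := ⟨hu.1, hu.2.trans hp0.2⟩
    have k1 : quantile (law (fun u => q1 u + c)) u = q1 u + c := by
      refine quantile_law (q1_meas.add_const c) ?_ (q1_cont.add continuousOn_const) hu'
      intro a ha b hb hab
      have := q1_mono ha hb hab
      simp only
      linarith
    have k2 : quantile (law (fun u => q2 u + c)) u = q2 u + c := by
      refine quantile_law (q2_meas.add_const c) ?_ (q2_cont.add continuousOn_const) hu'
      intro a ha b hb hab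
      have := q2_mono ha hb hab
      simp only
      linarith
    rw [law_conv_dirac q1_meas, law_conv_dirac q2_meas, k1, k2]
    have h3 : Real.log u < -5 / 2 := by
      rw [Real.log_lt_iff_lt_exp hu.1]
      exact hu.2
    have h4 := hu.1
    simp only [q1, q2]
    linarith
  exact absurd h1 (not_le.2 h2)

/-- **Q1 has a negative answer, already for `n = 3`.**  There are integrable laws `μ`, `ν` on `ℝ`
with `μ_{1:k} = ν_{1:k}` for `k = 1, 2` and `μ_{1:3} > ν_{1:3}` such that for every integrable noise
law `ρ` the relation `X + Z ≤₃⁻ Y + Z` fails (so `X + Z <₃⁻ Y + Z` fails as well). -/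
theorem result :
    ∃ μ ν : Measure ℝ, IsProbabilityMeasure μ ∧ IsProbabilityMeasure ν ∧
      Integrable (fun x => x) μ ∧ Integrable (fun x => x) ν ∧
      minMean 1 μ = minMean 1 ν ∧ minMean 2 μ = minMean 2 ν ∧ minMean 3 ν < minMean 3 μ ∧
      ∀ ρ : Measure ℝ, IsProbabilityMeasure ρ → Integrable (fun x => x) ρ →
        ¬ ISDle 3 (μ ∗ ρ) (ν ∗ ρ) ∧ ¬ ISDlt 3 (μ ∗ ρ) (ν ∗ ρ) := by
  refine ⟨law q1, law q2, inferInstance, inferInstance, int1, int2, ?_, ?_, ?_, ?_⟩
  · rw [mean_q1, mean_q2]
  · rw [mean_q1_two, mean_q2_two]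
  · rw [mean_q1_three, mean_q2_three]
    norm_num
  · intro ρ hρ1 hρ
    have key : ¬ ISDle 3 (law q1 ∗ ρ) (law q2 ∗ ρ) := by
      intro h
      obtain ⟨c, hc⟩ := eq_dirac_of_le hρ
        (minMean_le_of_ISDle (integrable_conv int1 hρ) (integrable_conv int2 hρ) h)
      rw [hc] at h
      exact not_dirac c h
    exact ⟨key, fun h => key h.1⟩

end Pool.Agent.Results.MP_dbe012_pr.NoBackgroundNoise
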